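import Pool.Agent.H29.T1.S7

/-!
# T1, row TWFK: the twists of the elements of the family
-/

set_option autoImplicit false

namespace Pool.T1

open Polynomial IsDedekindDomain

/-- Scaling of the roots is a substitution. -/
private theorem scale_eq {K : Type} [Field K] (p : K[X]) (d : K) (hd : d ≠ 0) :
    p.scaleRoots d = C (d ^ p.natDegree) * p.comp (C d⁻¹ * X) := by
  ext i
  rw [coeff_scaleRoots, coeff_C_mul, comp_C_mul_X_coeff]
  rcases le_or_gt i p.natDegree with hi | hi
  · have h1 : d ^ p.natDegree = d ^ (p.natDegree - i) * d ^ i := by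
      rw [← pow_add, Nat.sub_add_cancel hi]
    rw [h1, inv_pow]
    have h2 : d ^ i ≠ 0 := pow_ne_zero _ hd
    field_simp
  · rw [coeff_eq_zero_of_natDegree_lt hi]
    simp

/-- Scaling of the roots preserves separability. -/
private theorem sep_scale {K : Type} [Field K] (p : K[X]) (d : K) (hd : d ≠ 0)
    (hp : p.Separable) : (p.scaleRoots d).Separable := by
  rw [scale_eq p d hd]
  obtain ⟨u, v, huv⟩ := hp
  have h1 := congrArg (fun q : K[X] => q.comp (C d⁻¹ * X)) huv
  simp only [add_comp, mul_comp, one_comp] at h1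
  have h2 : derivative (C (d ^ p.natDegree) * p.comp (C d⁻¹ * X)) =
      C (d ^ p.natDegree) * (C d⁻¹ * (derivative p).comp (C d⁻¹ * X)) := by
    rw [derivative_C_mul, derivative_comp]
    congr 2
    simp
  have h3 : (C (d ^ p.natDegree) : K[X]) * C ((d ^ p.natDegree)⁻¹) = 1 := by
    rw [← C_mul, mul_inv_cancel₀ (pow_ne_zero _ hd), C_1]
  have h4 : (C d : K[X]) * C d⁻¹ = 1 := by
    rw [← C_mul, mul_inv_cancel₀ hd, C_1]
  refine ⟨u.comp (C d⁻¹ * X) * C ((d ^ p.natDegree)⁻¹),
    v.comp (C d⁻¹ * X) * C ((d ^ p.natDegree)⁻¹) * C d, ?_⟩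
  rw [h2]
  linear_combination (u.comp (C d⁻¹ * X) * p.comp (C d⁻¹ * X) +
    v.comp (C d⁻¹ * X) * (derivative p).comp (C d⁻¹ * X) * (C d * C d⁻¹)) * h3 +
    v.comp (C d⁻¹ * X) * (derivative p).comp (C d⁻¹ * X) * h4 + h1

theorem twfk : TWFKStmt := by
  intro R _ _ K _ _ _ O π hG g h E f d hf hd hdE
  obtain ⟨⟨hm, hn, hc⟩, hs⟩ := hf
  have hinj : Function.Injective (algebraMap R K) := IsFractionRing.injective R K
  have hdK : algebraMap R K d ≠ 0 := by
    intro h0
    exact hd (hinj (by rw [h0, map_zero]))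
  refine ⟨⟨(monic_scaleRoots_iff d).2 hm, by rw [natDegree_scaleRoots, hn], ?_⟩, ?_⟩
  · intro i hi
    have h1 := hc i hi
    simp only [Lm, Set.mem_setOf_eq] at h1 hdE ⊢
    rw [zpow_natCast] at h1 hdE ⊢
    rw [coeff_scaleRoots, hn, Nat.sub_sub_self hi, map_mul, map_pow]
    have h2 : algebraMap R K (f.coeff (2 * g + 1 - i)) * algebraMap R K d ^ i *
        π ^ (i * (h + E)) = (algebraMap R K (f.coeff (2 * g + 1 - i)) * π ^ (i * h)) *
          (algebraMap R K d * π ^ E) ^ i := by
      rw [mul_add, pow_add, mul_pow, ← pow_mul, mul_comm E i]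
      ring
    rw [h2]
    exact mul_mem h1 (pow_mem hdE i)
  · have h1 : fk K (f.scaleRoots d) = (fk K f).scaleRoots (algebraMap R K d) := by
      refine map_scaleRoots f d _ ?_
      rw [hm.leadingCoeff, map_one]
      exact one_ne_zero
    rw [h1]
    exact sep_scale _ _ hdK hs

end Pool.T1
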