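import Pool.Agent.H29.T1.S7

/-!
# T1, row TWJK: scaling of the roots is injective
-/

set_option autoImplicit false

namespace Pool.T1

open Polynomial

theorem twjk : TWJKStmt := by
  intro R _ _ d hd f g h
  have h' : f.scaleRoots d = g.scaleRoots d := h
  have hdeg : f.natDegree = g.natDegree := by
    have := congrArg natDegree h'
    simpa [natDegree_scaleRoots] using this
  ext k
  have hk := congrArg (fun p => coeff p k) h'
  simp only [coeff_scaleRoots] at hk
  rw [hdeg] at hk
  exact mul_right_cancel₀ (pow_ne_zero _ hd) hk

end Pool.T1
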