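import Pool.Agent.H29.T1.S7

/-!
# T1, row ZERK: the equations with `a_1 = 0`
-/

set_option autoImplicit false

namespace Pool.T1

open Polynomial IsDedekindDomain

private theorem tay_coeff {R : Type} [CommRing R] (f : R[X]) (r : R) (n : ℕ) :
    (taylor r f).coeff n =
      ∑ i ∈ Finset.range (f.natDegree + 1), (i.choose n : R) * f.coeff i * r ^ (i - n) := by
  rw [taylor_coeff, hasseDeriv_apply]
  rw [f.sum_over_range (by intro n; simp)]
  rw [eval_finset_sum]
  exact Finset.sum_congr rfl fun i _ => by rw [eval_monomial]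

private theorem lm_tay {R : Type} [CommRing R] {K : Type} [Field K] [Algebra R K]
    {O : ValuationSubring K} {π : K} {N h : ℕ} {f : R[X]} {r : R} (hn : f.natDegree = N)
    (hc : ∀ i ≤ N, f.coeff (N - i) ∈ Lm R O π ((i * h : ℕ) : ℤ)) (hr : r ∈ Lm R O π (h : ℤ))
    (i : ℕ) (hi : i ≤ N) : (taylor r f).coeff (N - i) ∈ Lm R O π ((i * h : ℕ) : ℤ) := by
  simp only [Lm, Set.mem_setOf_eq, zpow_natCast] at hc hr ⊢
  rw [tay_coeff, map_sum, Finset.sum_mul]
  refine sum_mem fun k hk => ?_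
  rw [hn, Finset.mem_range] at hk
  rcases lt_or_ge k (N - i) with hlt | hge
  · rw [Nat.choose_eq_zero_of_lt hlt]
    simp
  · obtain ⟨j, hj⟩ := Nat.exists_eq_add_of_le hge
    have h1 := hc (N - k) (Nat.sub_le _ _)
    rw [Nat.sub_sub_self (by omega)] at h1
    have h2 : (N - k) + j = i := by omega
    have h3 : k - (N - i) = j := by omega
    have h4 : algebraMap R K ((k.choose (N - i) : R) * f.coeff k * r ^ (k - (N - i))) *
        π ^ (i * h) = ((k.choose (N - i) : ℕ) : K) *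
          (algebraMap R K (f.coeff k) * π ^ ((N - k) * h)) * (algebraMap R K r * π ^ h) ^ j := by
      rw [h3, ← h2, map_mul, map_mul, map_pow, map_natCast, add_mul, pow_add, mul_pow, ← pow_mul,
        mul_comm h j]
      ring
    rw [h4]
    exact mul_mem (mul_mem (natCast_mem O _) h1) (pow_mem hr j)

private theorem tay_top {R : Type} [CommRing R] {g : ℕ} {f : R[X]} (r : R) (hm : f.Monic)
    (hn : f.natDegree = 2 * g + 1) :
    (taylor r f).coeff (2 * g) = f.coeff (2 * g) + ((2 * g + 1 : ℕ) : R) * r := by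
  rw [tay_coeff, hn, Finset.sum_range_succ, Finset.sum_range_succ, Finset.sum_eq_zero]
  · have h1 : f.coeff (2 * g + 1) = 1 := by
      have := hm.coeff_natDegree
      rwa [hn] at this
    rw [h1, Nat.choose_self, Nat.choose_succ_self_right]
    simp
  · intro i hi
    rw [Finset.mem_range] at hi
    rw [Nat.choose_eq_zero_of_lt hi]
    simp

private theorem sep_tay {K : Type} [Field K] (f : K[X]) (c : K) (hf : f.Separable) :
    (taylor c f).Separable := by
  rw [taylor_apply]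
  have h1 : IsCoprime (f.comp (X + C c)) ((derivative f).comp (X + C c)) :=
    IsCoprime.map hf (compRingHom (X + C c))
  have h2 : derivative (f.comp (X + C c)) = (derivative f).comp (X + C c) := by
    rw [derivative_comp]
    simp
  rw [Separable, h2]
  exact h1

section Main

variable {R : Type} [CommRing R] [IsDedekindDomain R] {K : Type} [Field K] [Algebra R K]
  [IsFractionRing R K] {O : ValuationSubring K} {π : K}

private theorem alls_tay {g h : ℕ} {f : R[X]} {r : R} (hf : f ∈ AllS R O π g h)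
    (hr : r ∈ Lm R O π (h : ℤ)) : taylor r f ∈ AllS R O π g h := by
  obtain ⟨⟨hm, hn, hc⟩, hs⟩ := hf
  refine ⟨⟨?_, by rw [natDegree_taylor, hn], lm_tay hn hc hr⟩, ?_⟩
  · rw [Monic, leadingCoeff_taylor]
    exact hm
  · have h1 : fk K (taylor r f) = taylor (algebraMap R K r) (fk K f) := map_taylor _ _ _
    rw [h1]
    exact sep_tay _ _ hs

private theorem lm_neg {m : ℤ} {a : R} (ha : a ∈ Lm R O π m) : -a ∈ Lm R O π m := by
  simp only [Lm, Set.mem_setOf_eq] at ha ⊢
  rw [map_neg, neg_mul]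
  exact neg_mem ha

private theorem lm_mul {m : ℤ} {u a : R} (hu : algebraMap R K u ∈ O) (ha : a ∈ Lm R O π m) :
    u * a ∈ Lm R O π m := by
  simp only [Lm, Set.mem_setOf_eq] at ha ⊢
  rw [map_mul, mul_assoc]
  exact mul_mem hu ha

private theorem sel_tay (hT : TRAKStmt) {f : R[X]} (r : R) (hm : f.Monic) :
    SelK (fk K (taylor r f)) ↔ SelK (fk K f) := by
  have h1 : fk K (taylor r f) = (fk K f).comp (X - C (-(algebraMap R K r))) := by
    have h2 : fk K (taylor r f) = taylor (algebraMap R K r) (fk K f) := map_taylor _ _ _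
    rw [h2, taylor_apply, C_neg, sub_neg_eq_add]
  rw [h1]
  exact hT K (fk K f) _ (hm.map _)

omit [IsDedekindDomain R] [IsFractionRing R K] in
private theorem irr_tay {f : R[X]} (r : R) :
    Irreducible (fk K (taylor r f)) ↔ Irreducible (fk K f) := by
  have h2 : fk K (taylor r f) = taylorEquiv (algebraMap R K r) (fk K f) := map_taylor _ _ _
  rw [h2]
  exact MulEquiv.irreducible_iff (taylorEquiv (algebraMap R K r))

/-- The inverse of a natural number which is a unit of `R` is in `O`. -/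
private theorem inv_nat (hG : GR R O π) {N : ℕ} (hN : IsUnit ((N : ℕ) : R)) :
    ∃ u : R, (N : R) * u = 1 ∧ algebraMap R K u ∈ O := by
  obtain ⟨p, hp, hcp⟩ := hG.char
  obtain ⟨u, hu⟩ := hN.exists_right_inv
  have hK : ((N : ℕ) : K) * algebraMap R K u = 1 := by
    have := congrArg (algebraMap R K) hu
    rwa [map_mul, map_natCast, map_one] at this
  have hN0 : ((N : ℕ) : K) ≠ 0 := left_ne_zero_of_mul_eq_one hK
  have hcop : N.Coprime p := by
    rw [Nat.coprime_comm, hp.coprime_iff_not_dvd]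
    intro hd
    exact hN0 ((CharP.cast_eq_zero_iff K p N).2 hd)
  obtain ⟨m, -, hm⟩ := Nat.exists_mul_mod_eq_one_of_coprime hcop hp.one_lt
  have h1 : ((N : ℕ) : K) * (m : K) = 1 := by
    rw [← Nat.cast_mul, CharP.cast_eq_mod K p, hm, Nat.cast_one]
  have h2 : algebraMap R K u = (m : K) := mul_left_cancel₀ hN0 (hK.trans h1.symm)
  refine ⟨u, hu, ?_⟩
  rw [h2]
  exact natCast_mem O m

/-- The polynomials with any `a_1` from those with `a_1 = 0`. -/
private theorem alls_image {g h : ℕ} {u : R} (hu : ((2 * g + 1 : ℕ) : R) * u = 1)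
    (hO : algebraMap R K u ∈ O) (P : R[X] → Prop)
    (hP : ∀ f ∈ AllS R O π g h, ∀ r : R, P (taylor r f) ↔ P f) :
    {f ∈ AllS R O π g h | P f} =
      (fun z : R[X] × R => taylor (u * z.2) z.1) ''
        ({f ∈ AllS R O π g h | f.coeff (2 * g) = 0 ∧ P f} ×ˢ Lm R O π (h : ℤ)) := by
  ext F
  constructor
  · rintro ⟨hF, hPF⟩
    have hm := hF.1.1
    have hn := hF.1.2.1
    have ha : F.coeff (2 * g) ∈ Lm R O π (h : ℤ) := by
      have := hF.1.2.2 1 (by omega)
      rwa [Nat.add_sub_cancel, one_mul] at this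
    have hr : -(u * F.coeff (2 * g)) ∈ Lm R O π (h : ℤ) := lm_neg (lm_mul hO ha)
    refine ⟨(taylor (-(u * F.coeff (2 * g))) F, F.coeff (2 * g)),
      ⟨⟨alls_tay hF hr, ?_, (hP F hF _).2 hPF⟩, ha⟩, ?_⟩
    · rw [tay_top _ hm hn]
      linear_combination (-F.coeff (2 * g)) * hu
    · show taylor (u * F.coeff (2 * g)) (taylor (-(u * F.coeff (2 * g))) F) = F
      rw [taylor_taylor, add_neg_cancel, taylor_zero]
  · rintro ⟨⟨f, a⟩, ⟨⟨hf, -, hPf⟩, ha⟩, rfl⟩
    exact ⟨alls_tay hf (lm_mul hO ha), (hP f hf _).2 hPf⟩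

private theorem inj_image {g h : ℕ} {u : R} (hu : ((2 * g + 1 : ℕ) : R) * u = 1)
    (P : R[X] → Prop) :
    Set.InjOn (fun z : R[X] × R => taylor (u * z.2) z.1)
      ({f ∈ AllS R O π g h | f.coeff (2 * g) = 0 ∧ P f} ×ˢ Lm R O π (h : ℤ)) := by
  rintro ⟨f, a⟩ ⟨⟨hf, hf0, -⟩, -⟩ ⟨f', a'⟩ ⟨⟨hf', hf0', -⟩, -⟩ he
  have he' : taylor (u * a) f = taylor (u * a') f' := he
  have h1 := tay_top (u * a) hf.1.1 hf.1.2.1
  have h2 := tay_top (u * a') hf'.1.1 hf'.1.2.1
  have hf0a : f.coeff (2 * g) = 0 := hf0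
  have hf0b : f'.coeff (2 * g) = 0 := hf0'
  rw [hf0a] at h1
  rw [hf0b, ← he', h1] at h2
  have h3 : a = a' := by linear_combination h2 - (a - a') * hu
  subst h3
  exact Prod.ext (taylor_injective _ he') rfl

private theorem ncard_alls {g h : ℕ} {u : R} (hu : ((2 * g + 1 : ℕ) : R) * u = 1)
    (hO : algebraMap R K u ∈ O) (P : R[X] → Prop)
    (hP : ∀ f ∈ AllS R O π g h, ∀ r : R, P (taylor r f) ↔ P f) :
    {f ∈ AllS R O π g h | P f}.ncard =
      {f ∈ AllS R O π g h | f.coeff (2 * g) = 0 ∧ P f}.ncard * (Lm R O π (h : ℤ)).ncard := by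
  rw [alls_image hu hO P hP, Set.ncard_image_of_injOn (inj_image hu P), Set.ncard_prod]

end Main

theorem zerk (hT : TRAKStmt) : ZERKStmt := by
  intro R _ _ K _ _ _ O π hG g hg hN hpos
  obtain ⟨δ, hδ, h0, H⟩ := hpos
  obtain ⟨u, hu, hO⟩ := inv_nat hG hN
  refine ⟨δ, hδ, h0, fun h hh => ?_⟩
  obtain ⟨-, h1, h2⟩ := H h hh
  have e1 : (AllS R O π g h).ncard =
      {f ∈ AllS R O π g h | f.coeff (2 * g) = 0}.ncard * (Lm R O π (h : ℤ)).ncard := by
    have := ncard_alls (π := π) (h := h) hu hO (fun _ => True) (fun _ _ _ => Iff.rfl)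
    simpa using this
  have e2 : {f ∈ AllS R O π g h | SelK (fk K f) ∧ Irreducible (fk K f)}.ncard =
      {f ∈ AllS R O π g h | f.coeff (2 * g) = 0 ∧ SelK (fk K f) ∧
        Irreducible (fk K f)}.ncard * (Lm R O π (h : ℤ)).ncard :=
    ncard_alls (h := h) hu hO (fun f => SelK (fk K f) ∧ Irreducible (fk K f)) fun f hf r =>
      and_congr (sel_tay hT r hf.1.1) (irr_tay r)
  rw [e1] at h1
  have h3 : 0 < {f ∈ AllS R O π g h | f.coeff (2 * g) = 0}.ncard := Nat.pos_of_mul_pos_right h1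
  have h4 : 0 < (Lm R O π (h : ℤ)).ncard := Nat.pos_of_mul_pos_left h1
  refine ⟨h3, ?_⟩
  rw [e1, e2] at h2
  push_cast at h2
  have h5 : (0 : ℝ) < ((Lm R O π (h : ℤ)).ncard : ℝ) := by exact_mod_cast h4
  rw [← mul_assoc] at h2
  exact le_of_mul_le_mul_right h2 h5

end Pool.T1
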